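import Pool.Agent.Lib.MP_6b2d39_agUv.Base
import Pool.Agent.Lib.MP_6b2d39_agUn.Early
import Pool.Agent.Lib.MP_6b2d39_agUn.ClassEx

set_option autoImplicit false

namespace Pool.Agent.Lib.MP_6b2d39_agUv

open Pool.Agent.Lib.MP_6b2d39_agArr Pool.Agent.Lib.MP_6b2d39_agUn

variable {ι : Type} [DecidableEq ι]

private theorem ac_log {M X : ℕ} (hM : 1 ≤ M) (hX : 13 * Real.log (3 * M) + 16 ≤ X) :
    Nat.log 2 M + 2 ≤ X := by
  have hM0 : (1 : ℝ) ≤ M := by exact_mod_cast hM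
  have h1 : (2 : ℝ) ^ Nat.log 2 M ≤ M := by
    exact_mod_cast Nat.pow_log_le_self 2 (by omega : M ≠ 0)
  have h2 : (Nat.log 2 M : ℝ) * Real.log 2 ≤ Real.log M := by
    rw [← Real.log_pow]
    exact Real.log_le_log (by positivity) h1
  have h3 : Real.log M ≤ Real.log (3 * M) := Real.log_le_log (by linarith) (by linarith)
  have h4 := Real.log_two_gt_d9
  have h5 : (0 : ℝ) ≤ Nat.log 2 M := by positivity
  have h6 : (Nat.log 2 M : ℝ) * (1 / 2) ≤ (Nat.log 2 M : ℝ) * Real.log 2 :=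
    mul_le_mul_of_nonneg_left (by linarith) h5
  have h7 : (0 : ℝ) ≤ Real.log (3 * M) := Real.log_nonneg (by linarith)
  have h8 : ((Nat.log 2 M + 2 : ℕ) : ℝ) ≤ X := by
    push_cast
    linarith
  exact_mod_cast h8

private theorem ac_le {Q : ℕ} {z : ℤ} (hQ : 8 ≤ Q) {y : ℕ} {D : ℕ → ℤ} (h0 : D 0 ≤ z)
    (h1 : ∀ c, c + 1 < y → (Q : ℤ) ≤ 2 * (D c - D (c + 1))) : ∀ c < y, D c ≤ z := by
  have hQQ : (8 : ℤ) ≤ Q := by exact_mod_cast hQ
  intro c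
  induction c with
  | zero => intro _; exact h0
  | succ c ih =>
    intro hc
    have h2 := ih (by omega)
    have h3 := h1 c hc
    linarith

omit [DecidableEq ι] in
private theorem ac_sum {m : ι → ℕ} {J : Finset ι} {y : ℕ} (hm : ∀ i ∈ J, m i ≤ y) (D : ℕ → ℤ) :
    ∑ c ∈ Finset.range y, nd m J D c = ∑ c ∈ Finset.range y, D c - ms m J := by
  unfold nd ms
  rw [Finset.sum_sub_distrib, Finset.sum_comm]
  have h1 : ∑ i ∈ J, ∑ c ∈ Finset.range y, ((m i - c : ℕ) : ℤ) =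
      ∑ i ∈ J, ((m i * (m i + 1) / 2 : ℕ) : ℤ) := by
    refine Finset.sum_congr rfl fun i hi => ?_
    obtain ⟨t, ht⟩ : ∃ t, y = m i + t := ⟨y - m i, by have := hm i hi; omega⟩
    rw [ht, ← Nat.cast_sum, sum_tri']
  rw [h1]

/-- U51 (the early phase): `class_ex` with `f i = m i (m i + 1) / 2`, `W' = W + M^2` (its hypothesis:
`8 M z + W' (log2 M + 1) ≤ 32 M z - W'`, because `W' ≤ 8 M^2`, `log2 M + 2 ≤ X`, `M X ≤ z`), then
`early` for `O = {i | μ < m i}` (`B = 3 μ + 1`, bound `M`) and for `O = {i | 2 m i ≤ μ}`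
(`B = 3 μ + 1`, bound `μ / 2`); `J' = {i | μ < 2 m i ∧ m i ≤ μ}`; `4 μ ≤ y'` because
`y' z ≥ ∑ D' = v0 + ms J' ≥ 4 μ z`; the residual demands of `J'` have the sum
`∑ D' - ms J' = v0` (`y' ≥ μ ≥ m i`, `sum_tri'`). -/
theorem ar_classV {M z Q X W T : ℕ} (h : AbV M z Q X W) {R : ℕ → ℤ} (hR : RwA M z Q T R)
    {m : ι → ℕ} {J Z : Finset ι} (hJZ : Disjoint J Z) (hm : ∀ i ∈ J, m i ≤ M) {v0 : ℤ}
    (hv : |v0| ≤ W + M ^ 2) (hs : ∑ c ∈ Finset.range T, R c = v0 + ms m J) :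
    ∃ (μ y : ℕ) (J' : Finset ι) (D : ℕ → ℤ), 1 ≤ μ ∧ μ ≤ M ∧ J' ⊆ J ∧
      (∀ i ∈ J', m i ≤ μ ∧ μ < 2 * m i) ∧ 4 * μ ≤ y ∧ D 0 = z ∧
      (∀ c < 3 * μ, D c - D (c + 1) = Q) ∧
      (∀ c, c + 1 < y → (Q : ℤ) ≤ 2 * (D c - D (c + 1))) ∧ 1 ≤ D (y - 1) ∧
      ∑ c ∈ Finset.range y, nd m J' D c = v0 ∧
      (Cert m (J' ∪ Z) y D → Cert m (J ∪ Z) T R) := by
  classical
  have hM0 : (1 : ℤ) ≤ M := by exact_mod_cast h.hM
  have hQ8 : (8 : ℤ) ≤ Q := by exact_mod_cast h.hQ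
  have hz0 : (128 : ℤ) * M * Q ≤ z := by exact_mod_cast h.hz
  have hMQ : (8 : ℤ) ≤ M * Q := by nlinarith
  have hz1 : (1 : ℤ) ≤ z := by linarith
  have hz1' : 1 ≤ z := by exact_mod_cast hz1
  have hlog := ac_log h.hM h.hX
  have hlogX : (Nat.log 2 M : ℤ) + 2 ≤ X := by exact_mod_cast hlog
  have hlog0 : (0 : ℤ) ≤ Nat.log 2 M := by positivity
  have hzX : (80 : ℤ) * M * X ≤ z := by exact_mod_cast h.hzX
  have hW4 : (W : ℤ) ≤ 7 * (M : ℤ) ^ 2 := by exact_mod_cast h.hW4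
  have hW0 : (0 : ℤ) ≤ W := by positivity
  have hM2 : (0 : ℤ) ≤ (M : ℤ) ^ 2 := by positivity
  obtain ⟨W', hW'⟩ : ∃ W' : ℤ, W' = W + (M : ℤ) ^ 2 := ⟨_, rfl⟩
  have hW'0 : 0 ≤ W' := by linarith
  have hW'8 : W' ≤ 8 * (M : ℤ) ^ 2 := by linarith
  have hv1 : -W' ≤ v0 := by
    have := neg_le_of_abs_le hv
    linarith
  have hv2 : v0 ≤ W' := by
    have := le_of_abs_le hv
    linarith
  have hMz : (0 : ℤ) ≤ M * z := by positivity
  have hMz1 : (1 : ℤ) ≤ M * z := by nlinarith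
  -- the error terms
  have herr : 10 * (W' * ((Nat.log 2 M : ℤ) + 2)) ≤ M * z := by
    have e1 : W' * ((Nat.log 2 M : ℤ) + 2) ≤ 8 * (M : ℤ) ^ 2 * X :=
      mul_le_mul hW'8 hlogX (by linarith) (by positivity)
    have e2 : (M : ℤ) * (80 * M * X) ≤ M * z := mul_le_mul_of_nonneg_left hzX (by linarith)
    have e3 : 10 * (8 * (M : ℤ) ^ 2 * X) = (M : ℤ) * (80 * M * X) := by ring
    linarith
  have herr1 : W' * ((Nat.log 2 M : ℤ) + 2) = W' * (Nat.log 2 M : ℤ) + 2 * W' := by ring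
  have herr2 : W' * ((Nat.log 2 M : ℤ) + 1) = W' * (Nat.log 2 M : ℤ) + W' := by ring
  have herr0 : 0 ≤ W' * (Nat.log 2 M : ℤ) := mul_nonneg hW'0 hlog0
  have ha5 := hR.a5
  rw [hs] at ha5
  have ha5' : 32 * ((M : ℤ) * z) ≤ v0 + ms m J := by linarith
  obtain ⟨μ, hμ1, hμM, hmass, hbig⟩ := class_ex m (fun i => ((m i * (m i + 1) / 2 : ℕ) : ℤ))
    (fun i => by positivity) (fun i hi => by simp [hi]) (z := (z : ℤ)) (by linarith) hW'0 M J hm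
    h.hM (by
      have e1 : ms m J = ∑ i ∈ J, ((m i * (m i + 1) / 2 : ℕ) : ℤ) := rfl
      rw [← e1]
      linarith) (by linarith)
  have hμ0 : (1 : ℤ) ≤ μ := by exact_mod_cast hμ1
  have hμM0 : (μ : ℤ) ≤ M := by exact_mod_cast hμM
  -- the sets
  obtain ⟨J1, hJ1⟩ : ∃ J1, J1 = J.filter (fun i => μ < 2 * m i ∧ m i ≤ μ) := ⟨_, rfl⟩
  obtain ⟨J2, hJ2⟩ : ∃ J2, J2 = J.filter (fun i => m i ≤ μ) := ⟨_, rfl⟩
  obtain ⟨O1, hO1⟩ : ∃ O1, O1 = J.filter (fun i => μ < m i) := ⟨_, rfl⟩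
  obtain ⟨O2, hO2⟩ : ∃ O2, O2 = J.filter (fun i => 2 * m i ≤ μ) := ⟨_, rfl⟩
  have hmem1 : ∀ i, i ∈ J1 ↔ i ∈ J ∧ μ < 2 * m i ∧ m i ≤ μ := fun i => by
    rw [hJ1, Finset.mem_filter]
  have hmem2 : ∀ i, i ∈ J2 ↔ i ∈ J ∧ m i ≤ μ := fun i => by rw [hJ2, Finset.mem_filter]
  have hmemO1 : ∀ i, i ∈ O1 ↔ i ∈ J ∧ μ < m i := fun i => by rw [hO1, Finset.mem_filter]
  have hmemO2 : ∀ i, i ∈ O2 ↔ i ∈ J ∧ 2 * m i ≤ μ := fun i => by rw [hO2, Finset.mem_filter]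
  have hU1 : J2 ∪ O1 = J := by
    ext i
    rw [Finset.mem_union, hmem2, hmemO1]
    constructor
    · rintro (h1 | h1) <;> exact h1.1
    · intro h1
      rcases le_or_gt (m i) μ with h2 | h2
      · exact Or.inl ⟨h1, h2⟩
      · exact Or.inr ⟨h1, h2⟩
  have hU2 : J1 ∪ O2 = J2 := by
    ext i
    rw [Finset.mem_union, hmem1, hmemO2, hmem2]
    constructor
    · rintro (h1 | h1)
      · exact ⟨h1.1, h1.2.2⟩
      · exact ⟨h1.1, by have := h1.2; omega⟩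
    · intro h1
      rcases le_or_gt (2 * m i) μ with h2 | h2
      · exact Or.inr ⟨h1.1, h2⟩
      · exact Or.inl ⟨h1.1, h2, h1.2⟩
  have hZ : ∀ i ∈ J, i ∉ Z := fun i hi => Finset.disjoint_left.1 hJZ hi
  have hd1 : Disjoint (J2 ∪ Z) O1 := by
    rw [Finset.disjoint_left]
    intro i hi hi'
    rw [hmemO1] at hi'
    rcases Finset.mem_union.1 hi with h1 | h1
    · rw [hmem2] at h1
      have := hi'.2
      have := h1.2
      omega
    · exact hZ i hi'.1 h1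
  have hd2 : Disjoint (J1 ∪ Z) O2 := by
    rw [Finset.disjoint_left]
    intro i hi hi'
    rw [hmemO2] at hi'
    rcases Finset.mem_union.1 hi with h1 | h1
    · rw [hmem1] at h1
      have := hi'.2
      have := h1.2.1
      omega
    · exact hZ i hi'.1 h1
  have hd3 : Disjoint J2 O1 := hd1.mono_left Finset.subset_union_left
  -- masses
  have hm1 : 4 * (μ : ℤ) * z + W' ≤ ms m J1 := by
    rw [hJ1]
    exact hmass
  have hmO : ms m O1 ≤ 8 * (M : ℤ) * z + W' * Nat.log 2 M := by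
    rw [hO1]
    exact hbig
  have hm2 : ms m J = ms m J2 + ms m O1 := by
    rw [← hU1]
    exact Finset.sum_union hd3
  have hmm2 : (((3 * μ + 1 : ℕ) : ℤ) + M) * z ≤ v0 + ms m J2 := by
    have e1 : (((3 * μ + 1 : ℕ) : ℤ) + M) * z ≤ 5 * M * z := by
      refine mul_le_mul_of_nonneg_right ?_ (by linarith)
      push_cast
      linarith
    linarith
  have hmm1 : (((3 * μ + 1 : ℕ) : ℤ) + (μ / 2 : ℕ)) * z ≤ v0 + ms m J1 := by
    have e1 : (((3 * μ + 1 : ℕ) : ℤ) + (μ / 2 : ℕ)) * z ≤ 4 * μ * z := by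
      refine mul_le_mul_of_nonneg_right ?_ (by linarith)
      omega
    linarith
  -- the start
  have hI0 : Inv R m v0 (3 * μ + 1) z Q (J2 ∪ O1) T R := by
    rw [hU1]
    exact ⟨fun _ _ => rfl, hR.a2, hR.a4, hR.a3, hR.a0.le, hs⟩
  obtain ⟨y1, D1, -, hI1, hC1⟩ := early (Z := Z) h.hQ hz1' (by omega) hmm2 O1 hd1
    (fun i hi => hm i ((hmemO1 i).1 hi).1) T R hI0
  rw [← hU2] at hI1
  obtain ⟨y2, D2, -, hI2, hC2⟩ := early (Z := Z) h.hQ hz1' (by omega) hmm1 O2 hd2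
    (fun i hi => by have := ((hmemO2 i).1 hi).2; omega) y1 D1 hI1
  rw [hU2] at hC2
  rw [hU1] at hC1
  have hle := ac_le h.hQ hI2.e4 hI2.e1
  have hy : 4 * μ ≤ y2 := by
    have e1 : ∑ c ∈ Finset.range y2, D2 c ≤ y2 * z := by
      have := Finset.sum_le_card_nsmul (Finset.range y2) D2 z
        fun c hc => hle c (Finset.mem_range.1 hc)
      rwa [Finset.card_range, nsmul_eq_mul] at this
    have e2 : 4 * (μ : ℤ) * z ≤ y2 * z := by
      have := hI2.e5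
      linarith
    have e3 : 4 * (μ : ℤ) ≤ y2 := le_of_mul_le_mul_right e2 (by linarith)
    exact_mod_cast e3
  have hzero : D2 0 = z := by
    rw [hI2.e0 0 (by omega), hR.a0]
  refine ⟨μ, y2, J1, D2, hμ1, hμM, ?_, ?_, hy, hzero, ?_, hI2.e1, hI2.e3, ?_, fun hC => hC1 (hC2 hC)⟩
  · intro i hi
    exact ((hmem1 i).1 hi).1
  · intro i hi
    exact ⟨((hmem1 i).1 hi).2.2, ((hmem1 i).1 hi).2.1⟩
  · intro c hc
    rw [hI2.e0 c (by omega), hI2.e0 (c + 1) (by omega)]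
    exact hR.a1 c (by omega)
  · rw [ac_sum (fun i hi => by have := ((hmem1 i).1 hi).2.2; omega), hI2.e5]
    ring

end Pool.Agent.Lib.MP_6b2d39_agUv
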