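import Pool.Agent.Lib.MP_6b2d39_agUn.BaseM

/-!
The arrangement theorem of THEOREM U for rows of arbitrary length: `hW3` of `Ab` is needed for
`min z (M ^ 2)` only.
-/

set_option autoImplicit false

namespace Pool.Agent.Lib.MP_6b2d39_agUv

/-- numbers for the abstract rows: `M` bounds the multiplicities, `z` = first row, `Q` = slope
(as `Ab`, `z` may be large) -/
structure AbV (M z Q X W : ℕ) : Prop where
  hM : 1 ≤ M
  hQ : 8 ≤ Q
  hz : 128 * M * Q ≤ z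
  hX : 13 * Real.log (3 * M) + 16 ≤ X
  hzX : 80 * M * X ≤ z
  hW1 : 10 ^ 14 * (2 * M ^ 2 / z + 2) ^ 2 * X ^ 3 ≤ W
  hW2 : 10 ^ 8 * M * X ≤ W
  hW3 : 10 ^ 21 * min z (M ^ 2) ^ 3 ≤ W ^ 4
  hW4 : W ≤ 7 * M ^ 2

end Pool.Agent.Lib.MP_6b2d39_agUv
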