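import Pool.Agent.Lib.MP_6b2d39_agUv.Base

set_option autoImplicit false

namespace Pool.Agent.Lib.MP_6b2d39_agUv

private lemma ny_wV {μ z q V : ℕ} (h1 : 1 ≤ μ) (hq : q * z ≤ 2 * μ ^ 2) (hV1 : V ≤ μ)
    (hV2 : V * μ ≤ 13 * z) : (q + 2) * V ≤ 28 * μ := by
  have h : q * V ≤ 26 * μ := by
    have h2 : (q * V) * μ ≤ (26 * μ) * μ := by
      calc (q * V) * μ = q * (V * μ) := by ring
        _ ≤ q * (13 * z) := Nat.mul_le_mul_left _ hV2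
        _ = 13 * (q * z) := by ring
        _ ≤ 13 * (2 * μ ^ 2) := Nat.mul_le_mul_left _ hq
        _ = (26 * μ) * μ := by ring
    exact Nat.le_of_mul_le_mul_right h2 (by omega)
  calc (q + 2) * V = q * V + 2 * V := by ring
    _ ≤ 26 * μ + 2 * μ := by omega
    _ = 28 * μ := by ring

private lemma ny_K {μ z w V : ℕ} (hwV : w * V ≤ 28 * μ) (hV1 : V ≤ μ)
    (hV2 : V * μ ≤ 13 * z) : (w * V ^ 3) ^ 2 ≤ 1722448 * z ^ 3 := by
  have hVV : V * V ≤ 13 * z := le_trans (Nat.mul_le_mul_left _ hV1) hV2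
  calc (w * V ^ 3) ^ 2 = (w * V) ^ 2 * (V * V) * (V * V) := by ring
    _ ≤ (28 * μ) ^ 2 * (V * V) * (V * V) := by gcongr
    _ = 784 * (V * μ) ^ 2 * (V * V) := by ring
    _ ≤ 784 * (13 * z) ^ 2 * (13 * z) := by gcongr
    _ = 1722448 * z ^ 3 := by ring

private lemma ny_b2 {X V w W M μ β : ℕ} (hwV : w * V ≤ 28 * μ) (hμ : μ ≤ M)
    (hβ : β ^ 2 ≤ 40000 * (w * V)) (hW2 : 10 ^ 8 * M * X ≤ W) : 162 * X * β ^ 2 ≤ 8 * W := by
  calc 162 * X * β ^ 2 ≤ 162 * X * (40000 * (28 * M)) := by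
        gcongr
        exact le_trans hβ (Nat.mul_le_mul_left _ (le_trans hwV (Nat.mul_le_mul_left _ hμ)))
    _ ≤ 8 * (10 ^ 8 * M * X) := by
        have : 162 * X * (40000 * (28 * M)) = 181440000 * (M * X) := by ring
        have h2 : 8 * (10 ^ 8 * M * X) = 800000000 * (M * X) := by ring
        rw [this, h2]
        exact Nat.mul_le_mul_right _ (by norm_num)
    _ ≤ 8 * W := Nat.mul_le_mul_left _ hW2

private lemma ny_b1 {X w W wM : ℕ} (hw : w ≤ wM) (hW1 : 10 ^ 14 * wM ^ 2 * X ^ 3 ≤ W) :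
    162 * X * (120000 * w * X) ^ 2 ≤ 8 * W := by
  calc 162 * X * (120000 * w * X) ^ 2 = 2332800000000 * (w ^ 2 * X ^ 3) := by ring
    _ ≤ 800000000000000 * (wM ^ 2 * X ^ 3) := by gcongr; norm_num
    _ = 8 * (10 ^ 14 * wM ^ 2 * X ^ 3) := by ring
    _ ≤ 8 * W := Nat.mul_le_mul_left _ hW1

private lemma ny_b3 {X w W wM γ : ℕ} (hw : w ≤ wM) (hW1 : 10 ^ 14 * wM ^ 2 * X ^ 3 ≤ W)
    (hγ : γ ^ 3 ≤ 48000 * (w * W)) : 162 * X * γ ^ 2 ≤ 8 * W := by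
  apply (Nat.pow_le_pow_iff_left (n := 3) (by norm_num)).1
  calc (162 * X * γ ^ 2) ^ 3 = 4251528 * X ^ 3 * (γ ^ 3) ^ 2 := by ring
    _ ≤ 4251528 * X ^ 3 * (48000 * (w * W)) ^ 2 := by gcongr
    _ = 9795520512000000 * (w ^ 2 * X ^ 3) * W ^ 2 := by ring
    _ ≤ 51200000000000000 * (wM ^ 2 * X ^ 3) * W ^ 2 := by gcongr; norm_num
    _ = 512 * (10 ^ 14 * wM ^ 2 * X ^ 3) * W ^ 2 := by ring
    _ ≤ 512 * W * W ^ 2 := by gcongr
    _ = (8 * W) ^ 3 := by ring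

private lemma ny_b4 {X V w W M μ : ℕ} (hwV : w * V ≤ 28 * μ) (hμ : μ ≤ M)
    (hW2 : 10 ^ 8 * M * X ≤ W) : 6 * ((120000 * w * X) * V) ≤ W := by
  calc 6 * ((120000 * w * X) * V) = 720000 * X * (w * V) := by ring
    _ ≤ 720000 * X * (28 * M) :=
        Nat.mul_le_mul_left _ (le_trans hwV (Nat.mul_le_mul_left _ hμ))
    _ = 20160000 * (M * X) := by ring
    _ ≤ 100000000 * (M * X) := Nat.mul_le_mul_right _ (by norm_num)
    _ = 10 ^ 8 * M * X := by ring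
    _ ≤ W := hW2

private lemma ny_b5 {V w W z β : ℕ} (hK : (w * V ^ 3) ^ 2 ≤ 1722448 * z ^ 3)
    (hβ : β ^ 2 ≤ 40000 * (w * V)) (hW3 : 10 ^ 21 * z ^ 3 ≤ W ^ 4) : 6 * (β * V) ≤ W := by
  apply (Nat.pow_le_pow_iff_left (n := 4) (by norm_num)).1
  calc (6 * (β * V)) ^ 4 = 1296 * ((β ^ 2) ^ 2 * V ^ 4) := by ring
    _ ≤ 1296 * ((40000 * (w * V)) ^ 2 * V ^ 4) := by gcongr
    _ = 2073600000000 * (w * V ^ 3) ^ 2 := by ring
    _ ≤ 2073600000000 * (1722448 * z ^ 3) := by gcongr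
    _ ≤ 10 ^ 21 * z ^ 3 := by
        have : 2073600000000 * (1722448 * z ^ 3) = 3571668172800000000 * z ^ 3 := by ring
        rw [this]
        exact Nat.mul_le_mul_right _ (by norm_num)
    _ ≤ W ^ 4 := hW3

private lemma ny_b6 {V w W z γ : ℕ} (hK : (w * V ^ 3) ^ 2 ≤ 1722448 * z ^ 3)
    (hγ : γ ^ 3 ≤ 48000 * (w * W)) (hW3 : 10 ^ 21 * z ^ 3 ≤ W ^ 4) : 6 * (γ * V) ≤ W := by
  have h1 : 10368000 * (w * V ^ 3) ≤ W ^ 2 := by
    apply (Nat.pow_le_pow_iff_left (n := 2) (by norm_num)).1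
    calc (10368000 * (w * V ^ 3)) ^ 2 = 107495424000000 * (w * V ^ 3) ^ 2 := by ring
      _ ≤ 107495424000000 * (1722448 * z ^ 3) := by gcongr
      _ ≤ 10 ^ 21 * z ^ 3 := by
          have : 107495424000000 * (1722448 * z ^ 3) = 185155278077952000000 * z ^ 3 := by ring
          rw [this]
          exact Nat.mul_le_mul_right _ (by norm_num)
      _ ≤ W ^ 4 := hW3
      _ = (W ^ 2) ^ 2 := by ring
  apply (Nat.pow_le_pow_iff_left (n := 3) (by norm_num)).1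
  calc (6 * (γ * V)) ^ 3 = 216 * (γ ^ 3 * V ^ 3) := by ring
    _ ≤ 216 * ((48000 * (w * W)) * V ^ 3) := by gcongr
    _ = (10368000 * (w * V ^ 3)) * W := by ring
    _ ≤ W ^ 2 * W := by gcongr
    _ = W ^ 3 := by ring

/-- U50 (the number `y0`). `w = 2 μ^2/z + 2`, `Vs = min μ (11 z/μ + 2)`. Facts: `w Vs ≤ 28 μ` (as
`Vs ≤ 13 z / μ`), `Vs^2 ≤ 13 z`, so `(w Vs^3)^2 ≤ 364^2 * 13 z^3`. Take
`y0 = 120000 w X + (Nat.sqrt (10000 w Vs) + 1) + γ` with `γ` the least number with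
`3000 w (W + M) ≤ γ^3` (so `γ^3 ≤ 8 * 3000 w (W + M) ≤ 48000 w W`). With `α, β, γ` the three terms:
`2 y0^2 + X y0^2 ≤ (27/8) X (α^2 + β^2 + γ^2)`, and each of the six terms
`(27/8) X α^2, (27/8) X β^2, (27/8) X γ^2, α Vs, β Vs, γ Vs` is `≤ W / 6`
(`hW1`, `hW2`, `hW1` (cube it), `hW2`, `hW3`, `hW3`). -/
theorem num_v {M z Q X W : ℕ} (h : AbV M z Q X W) {μ : ℕ} (h1 : 1 ≤ μ) (hμ : μ ≤ M) :
    ∃ y0 : ℕ, 120000 * (2 * μ ^ 2 / z + 2) * X ≤ y0 ∧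
      10000 * (2 * μ ^ 2 / z + 2) * min μ (11 * z / μ + 2) ≤ y0 ^ 2 ∧
      3000 * (2 * μ ^ 2 / z + 2) * (W + M) ≤ y0 ^ 3 ∧
      2 * y0 ^ 2 + y0 * (min μ (11 * z / μ + 2) + X * y0) ≤ W := by
  have hX16 : 16 ≤ X := by
    have h2 := h.hX
    have hM1 : (1 : ℝ) ≤ 3 * (M : ℝ) := by
      have : (1 : ℝ) ≤ (M : ℝ) := by exact_mod_cast h.hM
      linarith
    have h3 : 0 ≤ Real.log (3 * M) := Real.log_nonneg hM1
    have h4 : (16 : ℝ) ≤ (X : ℝ) := by linarith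
    exact_mod_cast h4
  have hMz : M ≤ z := by
    have h2 := h.hz
    have h3 := h.hQ
    calc M = M * 1 := by ring
      _ ≤ 128 * M * Q := by nlinarith [Nat.zero_le M]
      _ ≤ z := h2
  have hMW : M ≤ W := by
    calc M = M * 1 := by ring
      _ ≤ 10 ^ 8 * M * X := by nlinarith [Nat.zero_le M]
      _ ≤ W := h.hW2
  obtain ⟨q, hqd⟩ : ∃ q, q = 2 * μ ^ 2 / z := ⟨_, rfl⟩
  obtain ⟨V, hVd⟩ : ∃ V, V = min μ (11 * z / μ + 2) := ⟨_, rfl⟩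
  have hq : q * z ≤ 2 * μ ^ 2 := by rw [hqd]; exact Nat.div_mul_le_self _ _
  have hV1 : V ≤ μ := by rw [hVd]; exact min_le_left _ _
  have hV2 : V * μ ≤ 13 * z := by
    have h2 : V ≤ 11 * z / μ + 2 := by rw [hVd]; exact min_le_right _ _
    have h3 : 11 * z / μ * μ ≤ 11 * z := Nat.div_mul_le_self _ _
    calc V * μ ≤ (11 * z / μ + 2) * μ := Nat.mul_le_mul_right _ h2
      _ = 11 * z / μ * μ + 2 * μ := by ring
      _ ≤ 11 * z + 2 * z := by omega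
      _ = 13 * z := by ring
  have hV0 : 1 ≤ V := by
    rw [hVd]
    exact le_min h1 (Nat.succ_le_succ (Nat.zero_le _))
  have hqM : q ≤ 2 * M ^ 2 / z := by
    rw [hqd]
    exact Nat.div_le_div_right (Nat.mul_le_mul_left _ (Nat.pow_le_pow_left hμ 2))
  rw [← hqd, ← hVd]
  have hwV := ny_wV h1 hq hV1 hV2
  have hwM : q + 2 ≤ 2 * M ^ 2 / z + 2 := by omega
  obtain ⟨w, hw⟩ : ∃ w, w = q + 2 := ⟨_, rfl⟩
  rw [← hw] at hwV hwM ⊢
  have hw2 : 2 ≤ w := by omega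
  have hVz : V * μ ≤ 13 * min z (M ^ 2) := by
    rcases le_total z (M ^ 2) with h5 | h5
    · rw [min_eq_left h5]
      exact hV2
    · rw [min_eq_right h5]
      calc V * μ ≤ M * M := Nat.mul_le_mul (hV1.trans hμ) hμ
        _ = M ^ 2 := by ring
        _ ≤ 13 * M ^ 2 := by omega
  have hK := ny_K hwV hV1 hVz
  -- beta
  obtain ⟨β, hβ1, hβ2⟩ : ∃ β : ℕ, 10000 * w * V ≤ β ^ 2 ∧ β ^ 2 ≤ 40000 * (w * V) := by
    have hs1 : Nat.sqrt (10000 * w * V) ^ 2 ≤ 10000 * w * V := Nat.sqrt_le' _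
    have hs2 : 10000 * w * V < (Nat.sqrt (10000 * w * V) + 1) ^ 2 := Nat.lt_succ_sqrt' _
    have hs3 : 1 ≤ Nat.sqrt (10000 * w * V) := by
      rw [Nat.le_sqrt']
      have : 1 ≤ w * V := Nat.mul_pos (by omega) (by omega)
      nlinarith
    refine ⟨Nat.sqrt (10000 * w * V) + 1, hs2.le, ?_⟩
    nlinarith
  -- gamma
  obtain ⟨γ, hγ1, hγ2⟩ : ∃ γ : ℕ, 3000 * w * (W + M) ≤ γ ^ 3 ∧ γ ^ 3 ≤ 48000 * (w * W) := by
    have hex : ∃ g : ℕ, 3000 * w * (W + M) ≤ g ^ 3 :=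
      ⟨3000 * w * (W + M), Nat.le_self_pow (by norm_num) _⟩
    have hfs := Nat.find_spec hex
    have hpos : 1 < 3000 * w * (W + M) := by
      have h2 : 1 ≤ W + M := by have := h.hM; omega
      nlinarith
    have hf2 : 2 ≤ Nat.find hex := by
      by_contra hc
      have h3 : Nat.find hex ≤ 1 := by omega
      have h4 : (Nat.find hex) ^ 3 ≤ 1 ^ 3 := Nat.pow_le_pow_left h3 3
      omega
    obtain ⟨g, hg⟩ : ∃ g, Nat.find hex = g + 1 := ⟨Nat.find hex - 1, by omega⟩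
    have hmin : ¬ (3000 * w * (W + M) ≤ g ^ 3) := Nat.find_min hex (by omega)
    refine ⟨Nat.find hex, hfs, ?_⟩
    rw [hg]
    have hg1 : 1 ≤ g := by omega
    calc (g + 1) ^ 3 ≤ (2 * g) ^ 3 := Nat.pow_le_pow_left (by omega) 3
      _ = 8 * g ^ 3 := by ring
      _ ≤ 8 * (3000 * w * (W + M)) := by omega
      _ ≤ 8 * (3000 * w * (W + W)) := by gcongr
      _ = 48000 * (w * W) := by ring
  have b1 := ny_b1 (X := X) hwM h.hW1
  have b2 := ny_b2 hwV hμ hβ2 h.hW2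
  have b3 := ny_b3 hwM h.hW1 hγ2
  have b4 := ny_b4 hwV hμ h.hW2
  have b5 := ny_b5 hK hβ2 h.hW3
  have b6 := ny_b6 hK hγ2 h.hW3
  obtain ⟨α, hα⟩ : ∃ α, α = 120000 * w * X := ⟨_, rfl⟩
  rw [← hα] at b1 b4 ⊢
  refine ⟨α + β + γ, by omega, ?_, ?_, ?_⟩
  · exact le_trans hβ1 (Nat.pow_le_pow_left (by omega) 2)
  · exact le_trans hγ1 (Nat.pow_le_pow_left (by omega) 3)
  · have e1 : 48 * ((2 + X) * (α + β + γ) ^ 2) ≤ 24 * W := by
      have c1 : 8 * (2 + X) ≤ 9 * X := by omega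
      have c2 : (α + β + γ) ^ 2 ≤ 3 * (α ^ 2 + β ^ 2 + γ ^ 2) := by
        zify
        nlinarith [sq_nonneg ((α : ℤ) - β), sq_nonneg ((α : ℤ) - γ), sq_nonneg ((β : ℤ) - γ)]
      calc 48 * ((2 + X) * (α + β + γ) ^ 2) = 6 * ((8 * (2 + X)) * (α + β + γ) ^ 2) := by ring
        _ ≤ 6 * ((9 * X) * (3 * (α ^ 2 + β ^ 2 + γ ^ 2))) := by gcongr
        _ = 162 * X * α ^ 2 + 162 * X * β ^ 2 + 162 * X * γ ^ 2 := by ring
        _ ≤ 8 * W + 8 * W + 8 * W := by omega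
        _ = 24 * W := by ring
    have e2 : 6 * ((α + β + γ) * V) ≤ 3 * W := by
      calc 6 * ((α + β + γ) * V) = 6 * (α * V) + 6 * (β * V) + 6 * (γ * V) := by ring
        _ ≤ W + W + W := by omega
        _ = 3 * W := by ring
    calc 2 * (α + β + γ) ^ 2 + (α + β + γ) * (V + X * (α + β + γ))
        = (2 + X) * (α + β + γ) ^ 2 + (α + β + γ) * V := by ring
      _ ≤ W := by omega

end Pool.Agent.Lib.MP_6b2d39_agUv
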